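import Mathlib
import Pool.Agent.H925R3.DC.Stubs

/-! HP: a rational point of the double cover gives a square value at primitive coordinates -/

set_option autoImplicit false

namespace Pool.Agent.H311R2.DC

open Finset Pool.Agent.H925R3.DC

theorem disc (a b : ℤ) (h : 4 * a ^ 3 + 27 * b ^ 2 ≠ 0) : (crv ℚ (a : ℚ) (b : ℚ)).Δ ≠ 0 := by
  have h1 : (4 * (a : ℚ) ^ 3 + 27 * (b : ℚ) ^ 2) ≠ 0 := by exact_mod_cast h
  have h2 : (crv ℚ (a : ℚ) (b : ℚ)).Δ = -16 * (4 * (a : ℚ) ^ 3 + 27 * (b : ℚ) ^ 2) := by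
    simp only [crv, WeierstrassCurve.Δ, WeierstrassCurve.b₂, WeierstrassCurve.b₄,
      WeierstrassCurve.b₆, WeierstrassCurve.b₈]
    ring
  rw [h2]
  exact mul_ne_zero (by norm_num) h1

theorem eqn (a b x y : ℚ) (h : y ^ 2 = x ^ 3 + a * x + b) : (crv ℚ a b).Equation x y := by
  rw [WeierstrassCurve.Affine.equation_iff]
  simp only [crv]
  linear_combination h

theorem one_factor (a b : ℤ) (hab : 4 * a ^ 3 + 27 * b ^ 2 ≠ 0) (X Y Z : ℚ)
    (h : Y ^ 2 = X ^ 3 + a * X * Z ^ 4 + b * Z ^ 6) (hne : ¬ (X = 0 ∧ Y = 0 ∧ Z = 0)) :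
    ∃ P : (crv ℚ (a : ℚ) (b : ℚ)).Point, ∀ X' Y' Z' : ℤ, Rep P X' Y' Z' →
      ∃ l : ℚ, l ≠ 0 ∧ X = l ^ 2 * X' ∧ Y = l ^ 3 * Y' ∧ Z = l * Z' := by
  by_cases hZ : Z = 0
  · refine ⟨0, ?_⟩
    rintro X' Y' Z' ⟨-, -, h1⟩
    rcases h1 with ⟨-, rfl, rfl, rfl⟩ | ⟨-, h2, h3⟩
    · subst hZ
      have h4 : Y ^ 2 = X ^ 3 := by rw [h]; ring
      have hX : X ≠ 0 := by
        rintro rfl
        have h5 : Y = 0 := by
          have : Y ^ 2 = 0 := by rw [h4]; ring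
          exact pow_eq_zero_iff (two_ne_zero) |>.1 this
        exact hne ⟨rfl, h5, rfl⟩
      have hY : Y ≠ 0 := by
        rintro rfl
        have : X ^ 3 = 0 := by rw [← h4]; ring
        exact hX (pow_eq_zero_iff (by norm_num) |>.1 this)
      refine ⟨Y / X, div_ne_zero hY hX, ?_, ?_, ?_⟩
      · rw [div_pow, h4]
        push_cast
        field_simp
      · rw [div_pow, ← h4]
        push_cast
        field_simp
      · simp
    · exact absurd h3.symm (WeierstrassCurve.Affine.Point.some_ne_zero _)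
  · have hE : (crv ℚ (a : ℚ) (b : ℚ)).Equation (X / Z ^ 2) (Y / Z ^ 3) := by
      apply eqn
      field_simp
      linear_combination h
    have hN : (crv ℚ (a : ℚ) (b : ℚ)).Nonsingular (X / Z ^ 2) (Y / Z ^ 3) :=
      ((crv ℚ (a : ℚ) (b : ℚ)).equation_iff_nonsingular_of_Δ_ne_zero (disc a b hab)).1 hE
    refine ⟨.some (X / Z ^ 2) (Y / Z ^ 3) hN, ?_⟩
    rintro X' Y' Z' ⟨-, -, h1⟩
    rcases h1 with ⟨h2, -⟩ | ⟨hZ', h2, h3⟩
    · exact absurd h2 (WeierstrassCurve.Affine.Point.some_ne_zero _)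
    · have hZq : (Z' : ℚ) ≠ 0 := by exact_mod_cast hZ'
      rw [WeierstrassCurve.Affine.Point.some.injEq] at h3
      obtain ⟨e1, e2⟩ := h3
      refine ⟨Z / Z', div_ne_zero hZ hZq, ?_, ?_, ?_⟩
      · field_simp at e1 ⊢
        linear_combination e1
      · field_simp at e2 ⊢
        linear_combination e2
      · field_simp

theorem mono_scale {m : ℕ} (s : Mon m) (l X Y Z : ℚ) :
    mono s (l ^ 2 * X) (l ^ 3 * Y) (l * Z) = (l ^ m) ^ 2 * mono s X Y Z := by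
  have hs : 2 * s.1.1 + 3 * s.1.2 ≤ 2 * m := by
    have := s.2
    unfold monSet at this
    exact (mem_filter.1 this).2
  unfold mono
  have h1 : (l ^ m) ^ 2 = (l ^ 2) ^ s.1.1 * (l ^ 3) ^ s.1.2 *
      l ^ (2 * m - 2 * s.1.1 - 3 * s.1.2) := by
    rw [← pow_mul, ← pow_mul, ← pow_mul, ← pow_add, ← pow_add]
    congr 1
    omega
  rw [h1, mul_pow, mul_pow, mul_pow]
  ring

theorem hp : Pool.Agent.H925R3.DC.HP := by
  intro r m a b c hab hpt rep hrep
  obtain ⟨X, Y, Z, w, h1, hw⟩ := hpt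
  have h2 := fun i => one_factor (a i) (b i) (hab i) (X i) (Y i) (Z i) (h1 i).1 (h1 i).2
  choose P hP using h2
  have h3 := fun i => hP i _ _ _ (hrep i (P i))
  choose l hl hX hY hZ using h3
  refine ⟨P, ?_⟩
  have hF : Fc c X Y Z = (∏ i, l i ^ m) ^ 2 *
      ((Fc c (fun i => (rep i (P i)).1) (fun i => (rep i (P i)).2.1)
        (fun i => (rep i (P i)).2.2) : ℤ) : ℚ) := by
    unfold Fc
    push_cast
    rw [mul_sum]
    apply sum_congr rfl
    intro s _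
    have h4 : ∀ i, mono (s i) (X i) (Y i) (Z i) = (l i ^ m) ^ 2 *
        mono (s i) (((rep i (P i)).1 : ℤ) : ℚ) (((rep i (P i)).2.1 : ℤ) : ℚ)
          (((rep i (P i)).2.2 : ℤ) : ℚ) := by
      intro i
      rw [hX i, hY i, hZ i, mono_scale]
    rw [prod_congr rfl (fun i _ => h4 i), prod_mul_distrib, prod_pow]
    have h5 : ∀ i, ((mono (s i) (rep i (P i)).1 (rep i (P i)).2.1 (rep i (P i)).2.2 : ℤ) : ℚ) =
        mono (s i) (((rep i (P i)).1 : ℤ) : ℚ) (((rep i (P i)).2.1 : ℤ) : ℚ)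
          (((rep i (P i)).2.2 : ℤ) : ℚ) := by
      intro i
      unfold mono
      push_cast
      rfl
    rw [prod_congr rfl (fun i _ => h5 i)]
    ring
  rw [← Rat.isSquare_intCast_iff]
  have hne : (∏ i, l i ^ m) ≠ 0 := prod_ne_zero_iff.2 fun i _ => pow_ne_zero _ (hl i)
  refine ⟨w / ∏ i, l i ^ m, ?_⟩
  rw [hF] at hw
  field_simp
  rw [hw]
  ring

end Pool.Agent.H311R2.DC
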